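import Pool.Agent.H207.BT.Stm

/-!
# BT PULL (helper383): pulling back moving points along the orbit of a critical value
-/

set_option autoImplicit false

open Topology Filter Metric Set

namespace Pool.Agent.H383.BT207.PULL

open Pool.Agent.H211.HY

/-- Lipschitz estimate for bounded holomorphic functions -/
theorem lip_of_bound {E : Type*} [NormedAddCommGroup E] [NormedSpace ℂ E] {e : E → ℂ} {r M : ℝ}
    (hr : 0 < r) (hM : 0 ≤ M) (hd : DifferentiableOn ℂ e (ball 0 r))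
    (hb : ∀ s ∈ ball (0 : E) r, ‖e s‖ ≤ M) (s s' : E) (hs : ‖s‖ ≤ r / 2) (hs' : ‖s'‖ ≤ r / 2) :
    ‖e s' - e s‖ ≤ 4 * M / r * ‖s' - s‖ := by
  have hsr : s ∈ ball (0 : E) r := by rw [mem_ball_zero_iff]; linarith
  have hsr' : s' ∈ ball (0 : E) r := by rw [mem_ball_zero_iff]; linarith
  rcases lt_or_ge ‖s' - s‖ (r / 2) with h | h
  · have hsub : ball s (r / 2) ⊆ ball (0 : E) r := by
      intro u hu
      rw [mem_ball_iff_norm] at hu
      rw [mem_ball_zero_iff]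
      have h1 : ‖u‖ ≤ ‖u - s‖ + ‖s‖ := by
        have := norm_add_le (u - s) s
        rwa [sub_add_cancel] at this
      linarith
    have h1 := Complex.dist_le_div_mul_dist_of_mapsTo_ball (R₂ := 2 * M) (hd.mono hsub)
      (by
        intro u hu
        rw [mem_closedBall_iff_norm]
        have h2 := norm_sub_le (e u) (e s)
        have h3 := hb u (hsub hu)
        have h4 := hb s hsr
        linarith) (show s' ∈ ball s (r / 2) by rw [mem_ball_iff_norm]; exact h)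
    rw [dist_eq_norm, dist_eq_norm] at h1
    refine h1.trans (le_of_eq ?_)
    field_simp
    ring
  · have h2 := norm_sub_le (e s') (e s)
    have h3 := hb s' hsr'
    have h4 := hb s hsr
    have h5 : 2 * M ≤ 4 * M / r * ‖s' - s‖ := by
      rw [div_mul_eq_mul_div, le_div_iff₀ hr]
      have h6 : M * (r / 2) ≤ M * ‖s' - s‖ := mul_le_mul_of_nonneg_left h hM
      linarith
    linarith

/-- the contraction principle on a disc -/
theorem fixed_point {R : ℝ} (hR : 0 ≤ R) (Φ : ℂ → ℂ) (hmap : ∀ t : ℂ, ‖t‖ ≤ R → ‖Φ t‖ ≤ R)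
    (hlip : ∀ t t' : ℂ, ‖t‖ ≤ R → ‖t'‖ ≤ R → ‖Φ t' - Φ t‖ ≤ 1 / 2 * ‖t' - t‖) :
    ∃ t : ℂ, ‖t‖ ≤ R ∧ Φ t = t := by
  have hmaps : MapsTo Φ (closedBall 0 R) (closedBall 0 R) := by
    intro s hs
    rw [mem_closedBall_zero_iff] at hs ⊢
    exact hmap s hs
  have hK : ContractingWith (1 / 2 : NNReal) (hmaps.restrict Φ _ _) := by
    refine ⟨by norm_num, LipschitzWith.of_dist_le_mul fun a b => ?_⟩
    rw [Subtype.dist_eq, Subtype.dist_eq, dist_eq_norm, dist_eq_norm]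
    have ha : ‖(a : ℂ)‖ ≤ R := mem_closedBall_zero_iff.1 a.2
    have hb : ‖(b : ℂ)‖ ≤ R := mem_closedBall_zero_iff.1 b.2
    have h1 := hlip b a hb ha
    have h2 : ((1 / 2 : NNReal) : ℝ) = 1 / 2 := by norm_num
    rw [h2]
    exact h1
  obtain ⟨y, hy, hfy, -⟩ := hK.exists_fixedPoint' (isClosed_closedBall.isComplete) hmaps
    (x := 0) (mem_closedBall_self hR) (edist_ne_top _ _)
  exact ⟨y, mem_closedBall_zero_iff.1 hy, hfy⟩

/-! ### The extended parameter -/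

/-- forget the last coordinate -/
noncomputable def pr (k : ℕ) : (Fin (k + 1) → ℂ) →L[ℂ] (Fin k → ℂ) :=
  ContinuousLinearMap.pi fun j => ContinuousLinearMap.proj j.castSucc

theorem pr_apply {k : ℕ} (σ : Fin (k + 1) → ℂ) (j : Fin k) : pr k σ j = σ j.castSucc := rfl

theorem norm_pr_le {k : ℕ} (σ : Fin (k + 1) → ℂ) : ‖pr k σ‖ ≤ ‖σ‖ :=
  (pi_norm_le_iff_of_nonneg (norm_nonneg _)).2 fun j => norm_le_pi_norm σ j.castSucc

/-- append a coordinate -/
def sn {k : ℕ} (s : Fin k → ℂ) (t : ℂ) : Fin (k + 1) → ℂ := Fin.snoc (α := fun _ => ℂ) s t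

theorem sn_castSucc {k : ℕ} (s : Fin k → ℂ) (t : ℂ) (j : Fin k) : sn s t j.castSucc = s j :=
  Fin.snoc_castSucc (α := fun _ => ℂ) t s j

theorem sn_last {k : ℕ} (s : Fin k → ℂ) (t : ℂ) : sn s t (Fin.last k) = t :=
  Fin.snoc_last (α := fun _ => ℂ) t s

theorem pr_sn {k : ℕ} (s : Fin k → ℂ) (t : ℂ) : pr k (sn s t) = s := by
  funext j
  rw [pr_apply, sn_castSucc]

theorem norm_sn_le {k : ℕ} (s : Fin k → ℂ) (t : ℂ) {R : ℝ} (hs : ‖s‖ ≤ R) (ht : ‖t‖ ≤ R) :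
    ‖sn s t‖ ≤ R := by
  refine (pi_norm_le_iff_of_nonneg ((norm_nonneg t).trans ht)).2 fun j => ?_
  refine Fin.lastCases ?_ (fun j => ?_) j
  · rw [sn_last]
    exact ht
  · rw [sn_castSucc]
    exact (norm_le_pi_norm s j).trans hs

theorem le_norm_sn {k : ℕ} (s : Fin k → ℂ) (t : ℂ) : ‖s‖ ≤ ‖sn s t‖ := by
  have h := norm_pr_le (sn s t)
  rwa [pr_sn] at h

theorem sn_sub {k : ℕ} (s s' : Fin k → ℂ) (t t' : ℂ) : sn s t - sn s' t' = sn (s - s') (t - t') := by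
  funext j
  refine Fin.lastCases ?_ (fun j => ?_) j
  · rw [Pi.sub_apply, sn_last, sn_last, sn_last]
  · rw [Pi.sub_apply, sn_castSucc, sn_castSucc, sn_castSucc, Pi.sub_apply]

theorem norm_sn_sub_le {k : ℕ} (s s' : Fin k → ℂ) (t t' : ℂ) :
    ‖sn s t - sn s' t'‖ ≤ ‖s - s'‖ + ‖t - t'‖ := by
  rw [sn_sub]
  exact norm_sn_le _ _ (by linarith [norm_nonneg (t - t')]) (by linarith [norm_nonneg (s - s')])

theorem sn_zero {k : ℕ} : sn (0 : Fin k → ℂ) 0 = 0 := by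
  funext j
  refine Fin.lastCases ?_ (fun j => ?_) j
  · rw [sn_last]
    rfl
  · rw [sn_castSucc]
    rfl

/-- the extended maps -/
noncomputable def fh {k : ℕ} (f : ℕ → (Fin k → ℂ) → ℂ → ℂ) (n : ℕ) (σ : Fin (k + 1) → ℂ) (w : ℂ) :
    ℂ := f n (pr k σ) w

/-- the extended curve -/
noncomputable def vh {k : ℕ} (i : Fin k) (v : (Fin k → ℂ) → ℂ) (κ : ℂ) (σ : Fin (k + 1) → ℂ) : ℂ :=
  v (pr k σ) + σ (Fin.last k) - κ * σ i.castSucc

theorem DD_fh {k : ℕ} (f : ℕ → (Fin k → ℂ) → ℂ → ℂ) (z : ℕ → ℂ) (n : ℕ) :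
    DD (fh f) z n = DD f z n := by
  unfold DD
  refine Finset.prod_congr rfl fun j _ => ?_
  have e : fh f j 0 = f j 0 := by
    funext w
    unfold fh
    rw [map_zero]
  rw [e]

theorem pr_mem {k : ℕ} {ρ : ℝ} {σ : Fin (k + 1) → ℂ} (h : σ ∈ ball (0 : Fin (k + 1) → ℂ) ρ) :
    pr k σ ∈ ball (0 : Fin k → ℂ) ρ := by
  rw [mem_ball_zero_iff] at h ⊢
  exact (norm_pr_le σ).trans_lt h

theorem good_ext {k : ℕ} {i : Fin k} {f : ℕ → (Fin k → ℂ) → ℂ → ℂ} {v : (Fin k → ℂ) → ℂ}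
    {z : ℕ → ℂ} {x : ℕ → ℝ} {ρ C c μ : ℝ} {κ : ℂ} (hG : Good i f v z x ρ C c μ κ) :
    Good (Fin.last k) (fh f) (vh i v κ) z x ρ (C + ρ + ‖κ‖ * ρ) c μ 1 := by
  have hρ := hG.ρ0
  have hκ := norm_nonneg κ
  have hCC : C ≤ C + ρ + ‖κ‖ * ρ := by
    have := mul_nonneg hκ hρ.le
    linarith
  have hC0 : 0 < C := by linarith [hG.C1]
  have e0 : ∀ n, fh f n 0 = f n 0 := by
    intro n
    funext w
    unfold fh
    rw [map_zero]
  refine ⟨hρ, by linarith [hG.C1], hG.c0, hG.μ1, one_ne_zero, ?_, ?_, ?_, ?_, ?_, ?_, hG.xx, ?_, ?_,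
    ?_, ?_⟩
  · unfold vh
    rw [map_zero, hG.v0]
    simp
  · unfold vh
    refine ((hG.vd.comp (pr k).differentiable.differentiableOn fun σ h => pr_mem h).add
      (differentiable_apply _).differentiableOn).sub
      ((differentiableOn_const _).mul (differentiable_apply _).differentiableOn)
  · intro σ hσ
    have h1 := hG.vb _ (pr_mem hσ)
    rw [mem_ball_zero_iff] at hσ
    have h2 : ‖σ (Fin.last k)‖ ≤ ρ := (norm_le_pi_norm σ _).trans hσ.le
    have h3 : ‖κ * σ i.castSucc‖ ≤ ‖κ‖ * ρ := by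
      rw [norm_mul]
      exact mul_le_mul_of_nonneg_left ((norm_le_pi_norm σ _).trans hσ.le) hκ
    unfold vh
    refine (norm_sub_le _ _).trans (add_le_add ((norm_add_le _ _).trans (add_le_add h1 h2)) h3)
  · intro n
    rw [e0]
    exact hG.fz n
  · intro n
    have h1 : DifferentiableOn ℂ (fun p : (Fin (k + 1) → ℂ) × ℂ => (pr k p.1, p.2))
        (ball 0 ρ ×ˢ ball (z n) ρ) := by
      refine DifferentiableOn.prodMk ?_ differentiable_snd.differentiableOn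
      exact ((pr k).differentiable.comp differentiable_fst).differentiableOn
    exact (hG.fd n).comp h1 fun p hp => ⟨pr_mem hp.1, hp.2⟩
  · intro n σ hσ w hw
    exact (hG.fb n _ (pr_mem hσ) w hw).trans hCC
  · intro n
    rw [e0]
    refine ⟨(hG.dx n).1, (hG.dx n).2.trans ?_⟩
    exact mul_le_mul_of_nonneg_right hCC (hG.xx n).1.le
  · intro n σ hσ w hw h
    rw [e0]
    have hx := (hG.xx n).1
    have h0 := norm_pr_le σ
    have h1 : ‖pr k σ‖ + ‖w - z n‖ ≤ x n / C := by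
      have h2 : x n / (C + ρ + ‖κ‖ * ρ) ≤ x n / C := div_le_div_of_nonneg_left hx.le hC0 hCC
      linarith
    refine (hG.ds n _ (pr_mem hσ) w hw h1).trans ?_
    have h3 : (‖pr k σ‖ + ‖w - z n‖) / x n ≤ (‖σ‖ + ‖w - z n‖) / x n :=
      div_le_div_of_nonneg_right (by linarith) hx.le
    exact mul_le_mul (mul_le_mul_of_nonneg_right hCC (norm_nonneg _)) h3 (by positivity)
      (mul_nonneg (by linarith) (norm_nonneg _))
  · intro n
    rw [DD_fh]
    exact hG.gr n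
  · intro b
    have hv : DifferentiableAt ℂ v (pr k 0) := by
      rw [map_zero]
      exact hG.vd.differentiableAt (ball_mem_nhds _ hρ)
    have e1 : fderiv ℂ (vh i v κ) 0 b = fderiv ℂ v 0 (pr k b) + b (Fin.last k) - κ * b i.castSucc := by
      have h1 : HasFDerivAt (fun σ => v (pr k σ)) ((fderiv ℂ v (pr k 0)).comp (pr k)) 0 :=
        hv.hasFDerivAt.comp 0 (pr k).hasFDerivAt
      have h2 : HasFDerivAt (fun σ : Fin (k + 1) → ℂ => σ (Fin.last k))
          (ContinuousLinearMap.proj (R := ℂ) (φ := fun _ : Fin (k + 1) => ℂ) (Fin.last k)) 0 :=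
        (ContinuousLinearMap.proj (R := ℂ) (φ := fun _ : Fin (k + 1) => ℂ) (Fin.last k)).hasFDerivAt
      have h3 : HasFDerivAt (fun σ : Fin (k + 1) → ℂ => κ * σ i.castSucc)
          (κ • ContinuousLinearMap.proj (R := ℂ) (φ := fun _ : Fin (k + 1) => ℂ) i.castSucc) 0 :=
        (ContinuousLinearMap.proj (R := ℂ) (φ := fun _ : Fin (k + 1) => ℂ)
          i.castSucc).hasFDerivAt.const_mul κ
      have h4 : HasFDerivAt (vh i v κ) _ 0 := (h1.add h2).sub h3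
      rw [h4.fderiv, map_zero]
      rfl
    have e2 : ∀ j, fderiv ℂ (fun σ => fh f j σ (z j)) 0 b =
        fderiv ℂ (fun s => f j s (z j)) 0 (pr k b) := by
      intro j
      have h1 : DifferentiableAt ℂ (fun p : (Fin k → ℂ) × ℂ => f j p.1 p.2) (0, z j) :=
        (hG.fd j).differentiableAt (prod_mem_nhds (ball_mem_nhds _ hρ) (ball_mem_nhds _ hρ))
      have h2 : DifferentiableAt ℂ (fun s => f j s (z j)) (pr k 0) := by
        rw [map_zero]
        exact DifferentiableAt.comp (g := fun p : (Fin k → ℂ) × ℂ => f j p.1 p.2)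
          (f := fun s : Fin k → ℂ => (s, z j)) 0 h1
          (differentiableAt_id.prodMk (differentiableAt_const _))
      have h3 : HasFDerivAt (fun σ => fh f j σ (z j))
          ((fderiv ℂ (fun s => f j s (z j)) (pr k 0)).comp (pr k)) 0 :=
        h2.hasFDerivAt.comp 0 (pr k).hasFDerivAt
      rw [h3.fderiv, map_zero]
      rfl
    have h1 := (hG.fn (pr k b)).add_const (b (Fin.last k) - κ * b i.castSucc)
    have e3 : κ * pr k b i + (b (Fin.last k) - κ * b i.castSucc) = 1 * b (Fin.last k) := by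
      rw [pr_apply]
      ring
    rw [e3] at h1
    refine h1.congr fun n => ?_
    rw [e1]
    simp only [e2, DD_fh]
    ring

theorem YY_zero {k : ℕ} {i : Fin k} {f : ℕ → (Fin k → ℂ) → ℂ → ℂ} {v : (Fin k → ℂ) → ℂ}
    {z : ℕ → ℂ} {x : ℕ → ℝ} {ρ C c μ : ℝ} {κ : ℂ} (hG : Good i f v z x ρ C c μ κ) (n : ℕ) :
    YY f v n 0 = z n := by
  induction n with
  | zero => exact hG.v0
  | succ n ih =>
    change f n 0 (YY f v n 0) = z (n + 1)
    rw [ih, hG.fz]

theorem YY_ext {k : ℕ} (i : Fin k) (f : ℕ → (Fin k → ℂ) → ℂ → ℂ) (v w : (Fin k → ℂ) → ℂ)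
    (κ t : ℂ) (s : Fin k → ℂ) (hw : w s = v s + t - κ * s i) (n : ℕ) :
    YY f w n s = YY (fh f) (vh i v κ) n (sn s t) := by
  induction n with
  | zero =>
    change w s = vh i v κ (sn s t)
    unfold vh
    rw [pr_sn, sn_last, sn_castSucc, hw]
  | succ n ih =>
    change f n s (YY f w n s) = f n (pr k (sn s t)) (YY (fh f) (vh i v κ) n (sn s t))
    rw [ih, pr_sn]

theorem t_PULL (h : Pool.Agent.H207.BT.S_FOL2) : Pool.Agent.H207.BT.S_PULL := by
  intro k i f v z x ρ C c μ κ hG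
  have hρ := hG.ρ0
  have hC0 : 0 < C := by linarith [hG.C1]
  have hGe := good_ext hG
  obtain ⟨θ, hθ, r₀, hr₀, N₀, H⟩ := h (k + 1) (Fin.last k) (fh f) (vh i v κ) z x ρ _ c μ 1 hGe
    (1 / 64) (by norm_num) (1 / (2 * C)) (by positivity)
  have hκ := norm_nonneg κ
  have hCρ : 0 < C / ρ := by positivity
  refine ⟨16 + 4 * (C / ρ) + ‖κ‖, by linarith, θ, hθ, min r₀ ρ, lt_min hr₀ hρ, N₀, ?_⟩
  intro δ N hδ hδr hN hsum u r Λ hr hΛ hKr hKΛ hu hu0
  set K₀ : ℝ := 16 + 4 * (C / ρ) + ‖κ‖ with hK₀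
  have hK16 : 16 ≤ K₀ := by rw [hK₀]; linarith
  have hDne : DD f z N ≠ 0 := by
    unfold DD
    exact Finset.prod_ne_zero_iff.2 fun j _ => (hG.dx j).1
  set D : ℂ := DD f z N with hD
  have hDp : 0 < ‖D‖ := norm_pos_iff.2 hDne
  have hrδ : r ≤ δ / 16 := by nlinarith
  have hδρ : δ ≤ ρ := hδr.trans (min_le_right _ _)
  have hsum' : ∑ n ∈ Finset.range N, δ * ‖DD (fh f) z n‖ / x n ≤ θ := by
    simp only [DD_fh]
    exact hsum
  obtain ⟨hdiff, hfol⟩ := H δ N hδ (hδr.trans (min_le_left _ _)) hN hsum'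
  set Y : (Fin (k + 1) → ℂ) → ℂ := YY (fh f) (vh i v κ) N with hY
  -- the error
  set E : (Fin (k + 1) → ℂ) → ℂ := fun σ => Y σ - z N - D * σ (Fin.last k) with hE
  have hEd : DifferentiableOn ℂ E (ball 0 δ) := by
    refine (hdiff.sub (differentiableOn_const _)).sub ?_
    exact (differentiableOn_const _).mul (differentiable_apply _).differentiableOn
  have hEb : ∀ σ ∈ ball (0 : Fin (k + 1) → ℂ) δ, ‖E σ‖ ≤ 1 / 64 * δ * ‖D‖ := by
    intro σ hσ
    have h1 := (hfol σ hσ).2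
    rw [DD_fh, one_mul] at h1
    exact h1
  have hEl : ∀ σ σ' : Fin (k + 1) → ℂ, ‖σ‖ ≤ δ / 2 → ‖σ'‖ ≤ δ / 2 →
      ‖E σ' - E σ‖ ≤ ‖D‖ / 16 * ‖σ' - σ‖ := by
    intro σ σ' hσ hσ'
    refine (lip_of_bound hδ (by positivity) hEd hEb σ σ' hσ hσ').trans (le_of_eq ?_)
    field_simp
    ring
  have hE0 : E 0 = 0 := by
    have h1 : Y 0 = z N := YY_zero hGe N
    have h2 : E 0 = Y 0 - z N - D * (0 : Fin (k + 1) → ℂ) (Fin.last k) := rfl
    rw [h2, h1, Pi.zero_apply]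
    ring
  have hus : ∀ s ∈ ball (0 : Fin k → ℂ) r, ‖u s - z N‖ ≤ δ / 8 * ‖D‖ := by
    intro s hs
    have h1 := hu s hs 0 (mem_ball_self hr)
    rw [sub_zero] at h1
    rw [mem_ball_zero_iff] at hs
    have h2 : Λ * ‖s‖ ≤ Λ * r := mul_le_mul_of_nonneg_left hs.le hΛ
    have h3 : u s - z N = (u s - u 0) + (u 0 - z N) := by ring
    have h4 : ‖u s - z N‖ ≤ ‖u s - u 0‖ + ‖u 0 - z N‖ := by
      rw [h3]
      exact norm_add_le _ _
    have h5 : 16 * (Λ * r) ≤ δ * ‖D‖ := by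
      refine le_trans ?_ hKΛ
      rw [mul_assoc]
      exact mul_le_mul_of_nonneg_right hK16 (mul_nonneg hΛ hr.le)
    have h6 : 16 * ‖u 0 - z N‖ ≤ δ * ‖D‖ :=
      (mul_le_mul_of_nonneg_right hK16 (norm_nonneg _)).trans hu0
    linarith
  -- the solution
  have hsol : ∀ s : Fin k → ℂ, ∃ t : ℂ, s ∈ ball (0 : Fin k → ℂ) r →
      ‖t‖ ≤ δ / 4 ∧ D * t = u s - z N - E (sn s t) := by
    intro s
    by_cases hs : s ∈ ball (0 : Fin k → ℂ) r
    · have hs' := hs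
      rw [mem_ball_zero_iff] at hs'
      obtain ⟨t, ht, hfix⟩ := fixed_point (R := δ / 4) (by positivity)
        (fun t => (u s - z N - E (sn s t)) / D) (by
          intro t ht
          rw [norm_div, div_le_iff₀ hDp]
          have h1 : ‖sn s t‖ ≤ δ / 4 := norm_sn_le _ _ (by linarith) ht
          have h2 := hEb (sn s t) (by rw [mem_ball_zero_iff]; linarith)
          have h3 := norm_sub_le (u s - z N) (E (sn s t))
          have h4 := hus s hs
          have h5 : 0 < δ * ‖D‖ := mul_pos hδ hDp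
          nlinarith) (by
          intro t t' ht ht'
          rw [← sub_div, norm_div, div_le_iff₀ hDp]
          have h1 : ‖sn s t‖ ≤ δ / 2 := norm_sn_le _ _ (by linarith) (by linarith)
          have h2 : ‖sn s t'‖ ≤ δ / 2 := norm_sn_le _ _ (by linarith) (by linarith)
          have h3 := hEl (sn s t') (sn s t) h2 h1
          have h4 : u s - z N - E (sn s t') - (u s - z N - E (sn s t)) =
            E (sn s t) - E (sn s t') := by ring
          have h5 := norm_sn_sub_le s s t t'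
          rw [sub_self, norm_zero, zero_add, norm_sub_rev t t'] at h5
          rw [h4]
          have h6 : ‖D‖ / 16 * ‖sn s t - sn s t'‖ ≤ ‖D‖ / 16 * ‖t' - t‖ :=
            mul_le_mul_of_nonneg_left h5 (by positivity)
          have h7 : 0 ≤ ‖t' - t‖ * ‖D‖ := by positivity
          nlinarith)
      refine ⟨t, fun _ => ⟨ht, ?_⟩⟩
      have h1 : (u s - z N - E (sn s t)) / D = t := hfix
      rw [div_eq_iff hDne] at h1
      rw [h1]
      ring
    · exact ⟨0, fun h => absurd h hs⟩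
  choose t ht using hsol
  have hw0 : ∀ s : Fin k → ℂ, (fun s => v s + t s - κ * s i) s = v s + t s - κ * s i := fun _ => rfl
  have hmem2 : ∀ s ∈ ball (0 : Fin k → ℂ) r, ‖sn s (t s)‖ ≤ δ / 4 := by
    intro s hs
    have h1 := (ht s hs).1
    rw [mem_ball_zero_iff] at hs
    exact norm_sn_le _ _ (by linarith) h1
  -- the Lipschitz bound
  have htl : ∀ s ∈ ball (0 : Fin k → ℂ) r, ∀ s' ∈ ball (0 : Fin k → ℂ) r,
      ‖D‖ * ‖t s - t s'‖ ≤ (2 * Λ + ‖D‖ / 4) * ‖s - s'‖ := by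
    intro s hs s' hs'
    have h1 := (ht s hs).2
    have h2 := (ht s' hs').2
    have h3 := hEl (sn s' (t s')) (sn s (t s)) (by linarith [hmem2 s' hs']) (by linarith [hmem2 s hs])
    have h4 : D * (t s - t s') = (u s - u s') - (E (sn s (t s)) - E (sn s' (t s'))) := by
      linear_combination h1 - h2
    have h5 : ‖D‖ * ‖t s - t s'‖ ≤ ‖u s - u s'‖ + ‖E (sn s (t s)) - E (sn s' (t s'))‖ := by
      rw [← norm_mul, h4]
      exact norm_sub_le _ _
    have h6 := hu s hs s' hs'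
    have h7 : ‖D‖ / 16 * ‖sn s (t s) - sn s' (t s')‖ ≤ ‖D‖ / 16 * (‖s - s'‖ + ‖t s - t s'‖) :=
      mul_le_mul_of_nonneg_left (norm_sn_sub_le _ _ _ _) (by positivity)
    have h8 : 0 ≤ ‖D‖ * ‖t s - t s'‖ := by positivity
    have h9 : 0 ≤ ‖D‖ * ‖s - s'‖ := by positivity
    have h10 : 0 ≤ Λ * ‖s - s'‖ := by positivity
    nlinarith
  have hz0 : (0 : Fin k → ℂ) ∈ ball (0 : Fin k → ℂ) r := mem_ball_self hr
  have hww : v 0 + t 0 - κ * (0 : Fin k → ℂ) i - z 0 = t 0 := by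
    rw [hG.v0, Pi.zero_apply]
    ring
  have hE1 : ‖E (sn 0 (t 0))‖ ≤ ‖D‖ / 16 * ‖t 0‖ := by
    have h1 := hEl 0 (sn 0 (t 0)) (by rw [norm_zero]; positivity) (by linarith [hmem2 0 hz0])
    rw [hE0, sub_zero, sub_zero] at h1
    have h2 : ‖sn (0 : Fin k → ℂ) (t 0)‖ ≤ ‖t 0‖ :=
      norm_sn_le _ _ (by rw [norm_zero]; exact norm_nonneg _) le_rfl
    exact h1.trans (mul_le_mul_of_nonneg_left h2 (by positivity))
  have hDt := (ht 0 hz0).2
  refine ⟨fun s => v s + t s - κ * s i, ?_, ?_, ?_, ?_⟩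
  · intro s hs s' hs'
    have h1 := htl s hs s' hs'
    have hsn := hs
    have hsn' := hs'
    rw [mem_ball_zero_iff] at hsn hsn'
    have h2 : ‖v s - v s'‖ ≤ 4 * C / ρ * ‖s - s'‖ :=
      lip_of_bound hρ hC0.le hG.vd hG.vb s' s (by linarith) (by linarith)
    have h3 : ‖κ * (s i - s' i)‖ ≤ ‖κ‖ * ‖s - s'‖ := by
      rw [norm_mul]
      exact mul_le_mul_of_nonneg_left (norm_le_pi_norm (s - s') i) hκ
    have h4 : (v s + t s - κ * s i) - (v s' + t s' - κ * s' i) =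
      (v s - v s') + (t s - t s') - κ * (s i - s' i) := by ring
    have h5 : ‖(v s + t s - κ * s i) - (v s' + t s' - κ * s' i)‖ ≤
        ‖v s - v s'‖ + ‖t s - t s'‖ + ‖κ * (s i - s' i)‖ := by
      rw [h4]
      exact (norm_sub_le _ _).trans (add_le_add (norm_add_le _ _) le_rfl)
    have h6 : ‖t s - t s'‖ ≤ (2 * (Λ / ‖D‖) + 1 / 4) * ‖s - s'‖ := by
      have h7 : ‖t s - t s'‖ = (‖D‖ * ‖t s - t s'‖) / ‖D‖ := by
        rw [mul_div_cancel_left₀ _ hDp.ne']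
      rw [h7, div_le_iff₀ hDp]
      refine h1.trans (le_of_eq ?_)
      field_simp
    have h7 : (0 : ℝ) ≤ Λ / ‖D‖ := div_nonneg hΛ hDp.le
    have h8 : 4 * C / ρ * ‖s - s'‖ + (2 * (Λ / ‖D‖) + 1 / 4) * ‖s - s'‖ + ‖κ‖ * ‖s - s'‖ ≤
        (K₀ + K₀ * Λ / ‖D‖) * ‖s - s'‖ := by
      have h9 : K₀ * Λ / ‖D‖ = K₀ * (Λ / ‖D‖) := mul_div_assoc _ _ _
      have h10 : 4 * C / ρ = 4 * (C / ρ) := mul_div_assoc _ _ _
      have h11 : 2 * (Λ / ‖D‖) ≤ K₀ * (Λ / ‖D‖) := mul_le_mul_of_nonneg_right (by linarith) h7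
      rw [h9, h10, ← add_mul, ← add_mul]
      refine mul_le_mul_of_nonneg_right ?_ (norm_nonneg _)
      linarith
    linarith
  · change ‖u 0 - z N‖ ≤ K₀ * ‖D‖ * ‖v 0 + t 0 - κ * (0 : Fin k → ℂ) i - z 0‖
    rw [hww]
    have h1 : u 0 - z N = D * t 0 + E (sn 0 (t 0)) := by rw [hDt]; ring
    have h2 : ‖u 0 - z N‖ ≤ ‖D‖ * ‖t 0‖ + ‖E (sn 0 (t 0))‖ := by
      rw [h1, ← norm_mul]
      exact norm_add_le _ _
    have h3 : 0 ≤ ‖D‖ * ‖t 0‖ := by positivity
    have h4 : 16 * (‖D‖ * ‖t 0‖) ≤ K₀ * (‖D‖ * ‖t 0‖) := mul_le_mul_of_nonneg_right hK16 h3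
    rw [mul_assoc]
    linarith
  · change ‖D‖ * ‖v 0 + t 0 - κ * (0 : Fin k → ℂ) i - z 0‖ ≤ K₀ * ‖u 0 - z N‖
    rw [hww]
    have h2 : ‖D‖ * ‖t 0‖ ≤ ‖u 0 - z N‖ + ‖E (sn 0 (t 0))‖ := by
      rw [← norm_mul, hDt]
      exact norm_sub_le _ _
    have h3 : 0 ≤ ‖u 0 - z N‖ := norm_nonneg _
    have h4 : 16 * ‖u 0 - z N‖ ≤ K₀ * ‖u 0 - z N‖ := mul_le_mul_of_nonneg_right hK16 h3
    linarith
  · intro s hs
    have h1 := ht s hs
    have h2 := hmem2 s hs
    have hmem : sn s (t s) ∈ ball (0 : Fin (k + 1) → ℂ) δ := by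
      rw [mem_ball_zero_iff]
      linarith
    have h3 := fun n => YY_ext i f v (fun s => v s + t s - κ * s i) κ (t s) s (hw0 s) n
    refine ⟨?_, fun n hn => ?_⟩
    · rw [h3 N]
      have h4 : E (sn s (t s)) = Y (sn s (t s)) - z N - D * sn s (t s) (Fin.last k) := rfl
      rw [sn_last] at h4
      change Y (sn s (t s)) = u s
      linear_combination -h4 + h1.2
    · have h4 := (hfol _ hmem).1 n hn
      rw [h3 n]
      refine ⟨h4.1, ?_⟩
      have h5 := le_norm_sn s (t s)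
      have h6 : 1 / (2 * C) * x n = x n / (2 * C) := by ring
      linarith [h4.2]

end Pool.Agent.H383.BT207.PULL
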